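import Pool.Agent.K3h26.KP.Stm

/-! Brick CVX of project KP (MP_c4753b_co). -/

set_option autoImplicit false

namespace Pool.Agent.K3h90.KP

open Set Pool.Agent.K3h26.KP

/-- the term of the supremum -/
noncomputable def tm (β : (Fin 4 → ℝ) → ℝ) (j : Fin 4) (s : Fin 4 → ℝ) (θ : ℝ) : ℝ :=
  (1 - θ) * β (upd s j θ) + θ * β (upd s j (1 - θ))

/-- the one-step operator -/
noncomputable def op (β : (Fin 4 → ℝ) → ℝ) (j : Fin 4) (s : Fin 4 → ℝ) : ℝ :=
  ⨆ θ : Icc (0 : ℝ) 1, tm β j s θ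

lemma upd_mono {s s' : Fin 4 → ℝ} (h : s ≤ s') (j : Fin 4) {t t' : ℝ} (ht : t ≤ t') :
    upd s j t ≤ upd s' j t' := by
  intro i
  unfold upd
  by_cases hi : i = j
  · subst hi
    simp only [Function.update_self]
    exact max_le_max (h i) ht
  · simp only [Function.update_of_ne hi]
    exact h i

lemma max_cvx {a b x y z w : ℝ} (ha : 0 ≤ a) (hb : 0 ≤ b) :
    max (a * x + b * y) (a * z + b * w) ≤ a * max x z + b * max y w := by
  refine max_le ?_ ?_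
  · exact add_le_add (mul_le_mul_of_nonneg_left (le_max_left _ _) ha)
      (mul_le_mul_of_nonneg_left (le_max_left _ _) hb)
  · exact add_le_add (mul_le_mul_of_nonneg_left (le_max_right _ _) ha)
      (mul_le_mul_of_nonneg_left (le_max_right _ _) hb)

/-- coordinatewise convexity of `upd` in both arguments -/
lemma upd_cvx {a b : ℝ} (ha : 0 ≤ a) (hb : 0 ≤ b) (s s' : Fin 4 → ℝ) (j : Fin 4) (t t' : ℝ) :
    upd (a • s + b • s') j (a * t + b * t') ≤ a • upd s j t + b • upd s' j t' := by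
  intro i
  unfold upd
  by_cases hi : i = j
  · subst hi
    simp only [Function.update_self, Pi.add_apply, Pi.smul_apply, smul_eq_mul]
    exact max_cvx ha hb
  · simp only [Function.update_of_ne hi, Pi.add_apply, Pi.smul_apply, smul_eq_mul]
    exact le_rfl

lemma beta_cvx {β : (Fin 4 → ℝ) → ℝ} (hβ : Nice β) {a b : ℝ} (ha : 0 ≤ a) (hb : 0 ≤ b)
    (hab : a + b = 1) (s s' : Fin 4 → ℝ) (j : Fin 4) (t t' : ℝ) :
    β (upd (a • s + b • s') j (a * t + b * t')) ≤ a * β (upd s j t) + b * β (upd s' j t') :=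
  (hβ.1 (upd_cvx ha hb s s' j t t')).trans
    (by simpa using hβ.2.2 (mem_univ (upd s j t)) (mem_univ (upd s' j t')) ha hb hab)

lemma tm_le {β : (Fin 4 → ℝ) → ℝ} (hβ : Nice β) (j : Fin 4) (s : Fin 4 → ℝ) {θ : ℝ}
    (h0 : 0 ≤ θ) (h1 : θ ≤ 1) : tm β j s θ ≤ β (upd s j 1) := by
  unfold tm
  have e1 : β (upd s j θ) ≤ β (upd s j 1) := hβ.1 (upd_mono le_rfl j h1)
  have e2 : β (upd s j (1 - θ)) ≤ β (upd s j 1) := hβ.1 (upd_mono le_rfl j (by linarith))
  nlinarith [mul_le_mul_of_nonneg_left e1 (by linarith : (0 : ℝ) ≤ 1 - θ),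
    mul_le_mul_of_nonneg_left e2 h0]

lemma bdd {β : (Fin 4 → ℝ) → ℝ} (hβ : Nice β) (j : Fin 4) (s : Fin 4 → ℝ) :
    BddAbove (range fun θ : Icc (0 : ℝ) 1 => tm β j s θ) :=
  ⟨β (upd s j 1), by rintro _ ⟨θ, rfl⟩; exact tm_le hβ j s θ.2.1 θ.2.2⟩

lemma tm_le_op {β : (Fin 4 → ℝ) → ℝ} (hβ : Nice β) (j : Fin 4) (s : Fin 4 → ℝ) {θ : ℝ}
    (h0 : 0 ≤ θ) (h1 : θ ≤ 1) : tm β j s θ ≤ op β j s :=
  le_ciSup (bdd hβ j s) (⟨θ, h0, h1⟩ : Icc (0 : ℝ) 1)

instance : Nonempty (Icc (0 : ℝ) 1) := ⟨⟨0, le_rfl, zero_le_one⟩⟩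

lemma nice_op {β : (Fin 4 → ℝ) → ℝ} (hβ : Nice β) (j : Fin 4) : Nice (op β j) := by
  refine ⟨fun s s' h => ciSup_le fun θ => ?_, convex_univ, fun s _ s' _ a b ha hb hab =>
    ciSup_le fun θ => ?_⟩
  · refine le_trans ?_ (tm_le_op hβ j s' θ.2.1 θ.2.2)
    unfold tm
    exact add_le_add
      (mul_le_mul_of_nonneg_left (hβ.1 (upd_mono h j le_rfl)) (by linarith [θ.2.2]))
      (mul_le_mul_of_nonneg_left (hβ.1 (upd_mono h j le_rfl)) θ.2.1)
  · obtain ⟨θ, h0, h1⟩ := θ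
    have e1 := beta_cvx hβ ha hb hab s s' j θ θ
    have e2 := beta_cvx hβ ha hb hab s s' j (1 - θ) (1 - θ)
    have r1 : a * θ + b * θ = θ := by rw [← add_mul, hab, one_mul]
    have r2 : a * (1 - θ) + b * (1 - θ) = 1 - θ := by rw [← add_mul, hab, one_mul]
    rw [r1] at e1
    rw [r2] at e2
    have f1 := mul_le_mul_of_nonneg_left (tm_le_op hβ j s h0 h1) ha
    have f2 := mul_le_mul_of_nonneg_left (tm_le_op hβ j s' h0 h1) hb
    have g1 := mul_le_mul_of_nonneg_left e1 (by linarith : (0 : ℝ) ≤ 1 - θ)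
    have g2 := mul_le_mul_of_nonneg_left e2 h0
    simp only [smul_eq_mul]
    unfold tm at f1 f2 ⊢
    nlinarith

lemma upd_pt (n : Fin 4 → ℕ) (j : Fin 4) (i : ℕ) : upd (pt n) j ((i : ℝ) / 8) = pt (up n j i) := by
  funext k
  unfold upd pt up
  by_cases hk : k = j
  · subst hk
    simp only [Function.update_self]
    rcases le_total (n k) i with h | h
    · have h' : ((n k : ℕ) : ℝ) ≤ i := by exact_mod_cast h
      rw [max_eq_right h, max_eq_right (by linarith)]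
    · have h' : ((i : ℕ) : ℝ) ≤ n k := by exact_mod_cast h
      rw [max_eq_left h, max_eq_left (by linarith)]
  · simp only [Function.update_of_ne hk]

lemma quad {A B C x y : ℝ} (hA : 0 ≤ A) (hC : 0 ≤ C) (hx : 0 ≤ x) (hy : 0 ≤ y)
    (h : 0 ≤ B ∨ B ^ 2 ≤ 4 * A * C) : 0 ≤ x ^ 2 * A + x * y * B + y ^ 2 * C := by
  rcases h with h | h
  · positivity
  · have h1 : 0 ≤ x ^ 2 * A + y ^ 2 * C := by positivity
    have h2 : (x * y * B) ^ 2 ≤ (x ^ 2 * A + y ^ 2 * C) ^ 2 := by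
      have h3 : (x * y * B) ^ 2 ≤ (x * y) ^ 2 * (4 * A * C) := by
        rw [mul_pow]
        exact mul_le_mul_of_nonneg_left h (by positivity)
      nlinarith [sq_nonneg (x ^ 2 * A - y ^ 2 * C)]
    have h4 := abs_le_of_sq_le_sq' h2 h1
    linarith [h4.1]

/-- the bound on a grid interval -/
lemma grid {β : (Fin 4 → ℝ) → ℝ} (hβ : Nice β) (j : Fin 4) (T : (Fin 4 → ℕ) → ℕ) (t : ℕ)
    (n : Fin 4 → ℕ) (i : ℕ) (hi : i < 4)
    (hT : ∀ k : ℕ, k ≤ 8 → 1600000 * β (pt (up n j k)) ≤ T (up n j k))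
    (hic : ic i (T (up n j i)) (T (up n j (i + 1))) (T (up n j (8 - i))) (T (up n j (7 - i))) t)
    {l : ℝ} (hl0 : 0 ≤ l) (hl1 : l ≤ 1) {θ : ℝ} (hθ : θ = ((i : ℝ) + l) / 8) :
    1600000 * tm β j (pt n) θ ≤ t := by
  have hm : (0 : ℝ) ≤ 1 - l := by linarith
  have c1 := beta_cvx hβ hm hl0 (by ring) (pt n) (pt n) j ((i : ℝ) / 8) (((i + 1 : ℕ) : ℝ) / 8)
  have c2 := beta_cvx hβ hm hl0 (by ring) (pt n) (pt n) j (((8 - i : ℕ) : ℝ) / 8)
    (((7 - i : ℕ) : ℝ) / 8)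
  have hs : (1 - l) • pt n + l • pt n = pt n := by
    rw [← add_smul]; simp
  rw [hs, upd_pt, upd_pt] at c1 c2
  have k8 : ((8 - i : ℕ) : ℝ) = 8 - i := by
    rw [Nat.cast_sub (by omega)]; norm_num
  have k7 : ((7 - i : ℕ) : ℝ) = 7 - i := by
    rw [Nat.cast_sub (by omega)]; norm_num
  have r1 : (1 - l) * ((i : ℝ) / 8) + l * (((i + 1 : ℕ) : ℝ) / 8) = θ := by
    rw [hθ]; push_cast; ring
  have r2 : (1 - l) * (((8 - i : ℕ) : ℝ) / 8) + l * (((7 - i : ℕ) : ℝ) / 8) = 1 - θ := by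
    rw [hθ, k8, k7]; ring
  rw [r1] at c1
  rw [r2] at c2
  have a0 := hT i (by omega)
  have a1 := hT (i + 1) (by omega)
  have b0 := hT (8 - i) (by omega)
  have b1 := hT (7 - i) (by omega)
  obtain ⟨i1, i2, i3⟩ := hic
  set A0 := T (up n j i) with hA0
  set A1 := T (up n j (i + 1)) with hA1
  set B0 := T (up n j (8 - i)) with hB0
  set B1 := T (up n j (7 - i)) with hB1
  have hi4 : (i : ℝ) ≤ 3 := by exact_mod_cast (by omega : i ≤ 3)
  have hi0 : (0 : ℝ) ≤ i := Nat.cast_nonneg _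
  have i1' : (8 - (i : ℝ)) * A0 + i * B0 ≤ 8 * t := by
    have : (((8 - i) * A0 + i * B0 : ℕ) : ℝ) ≤ ((8 * t : ℕ) : ℝ) := by exact_mod_cast i1
    push_cast [k8] at this
    exact this
  have i2' : (7 - (i : ℝ)) * A1 + (i + 1) * B1 ≤ 8 * t := by
    have : (((7 - i) * A1 + (i + 1) * B1 : ℕ) : ℝ) ≤ ((8 * t : ℕ) : ℝ) := by exact_mod_cast i2
    push_cast [k7] at this
    exact this
  have i3' : 0 ≤ 16 * (t : ℝ) - ((8 - (i : ℝ)) * A1 + (7 - i) * A0 + i * B1 + (i + 1) * B0) ∨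
      (16 * (t : ℝ) - ((8 - (i : ℝ)) * A1 + (7 - i) * A0 + i * B1 + (i + 1) * B0)) ^ 2 ≤
        4 * (8 * t - ((8 - (i : ℝ)) * A0 + i * B0)) * (8 * t - ((7 - (i : ℝ)) * A1 + (i + 1) * B1)) := by
    rcases i3 with h | h
    · left
      have : (((8 - i) * A1 + (7 - i) * A0 + i * B1 + (i + 1) * B0 : ℕ) : ℝ) ≤
          ((16 * t : ℕ) : ℝ) := by exact_mod_cast h
      push_cast [k8, k7] at this
      linarith
    · rcases le_total ((8 - i) * A1 + (7 - i) * A0 + i * B1 + (i + 1) * B0) (16 * t) with h' | h'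
      · left
        have : (((8 - i) * A1 + (7 - i) * A0 + i * B1 + (i + 1) * B0 : ℕ) : ℝ) ≤
            ((16 * t : ℕ) : ℝ) := by exact_mod_cast h'
        push_cast [k8, k7] at this
        linarith
      · right
        have : ((((8 - i) * A1 + (7 - i) * A0 + i * B1 + (i + 1) * B0 - 16 * t) ^ 2 : ℕ) : ℝ) ≤
            ((4 * (8 * t - ((8 - i) * A0 + i * B0)) * (8 * t - ((7 - i) * A1 + (i + 1) * B1)) : ℕ)
              : ℝ) := by exact_mod_cast h
        have s1 : ((8 * t - ((8 - i) * A0 + i * B0) : ℕ) : ℝ) =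
            8 * t - ((8 - (i : ℝ)) * A0 + i * B0) := by
          rw [Nat.cast_sub i1]; push_cast [k8]; ring
        have s2 : ((8 * t - ((7 - i) * A1 + (i + 1) * B1) : ℕ) : ℝ) =
            8 * t - ((7 - (i : ℝ)) * A1 + (i + 1) * B1) := by
          rw [Nat.cast_sub i2]; push_cast [k7]; ring
        have s3 : (((8 - i) * A1 + (7 - i) * A0 + i * B1 + (i + 1) * B0 - 16 * t : ℕ) : ℝ) =
            ((8 - (i : ℝ)) * A1 + (7 - i) * A0 + i * B1 + (i + 1) * B0) - 16 * t := by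
          rw [Nat.cast_sub h']; push_cast [k7, k8]; ring
        rw [Nat.cast_pow, Nat.cast_mul, Nat.cast_mul, s1, s2, s3] at this
        push_cast at this
        nlinarith [this]
  have q := quad (x := 1 - l) (y := l) (by linarith : (0 : ℝ) ≤ 8 * t - ((8 - (i : ℝ)) * A0 + i * B0))
    (by linarith : (0 : ℝ) ≤ 8 * t - ((7 - (i : ℝ)) * A1 + (i + 1) * B1)) hm hl0 i3'
  have hθ0 : 0 ≤ θ := by rw [hθ]; positivity
  have hθ1 : 0 ≤ 1 - θ := by rw [hθ]; linarith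
  have m1 : 1600000 * β (upd (pt n) j θ) ≤ (1 - l) * A0 + l * A1 := by
    nlinarith [mul_le_mul_of_nonneg_left a0 hm, mul_le_mul_of_nonneg_left a1 hl0]
  have m2 : 1600000 * β (upd (pt n) j (1 - θ)) ≤ (1 - l) * B0 + l * B1 := by
    nlinarith [mul_le_mul_of_nonneg_left b0 hm, mul_le_mul_of_nonneg_left b1 hl0]
  have n1 := mul_le_mul_of_nonneg_left m1 hθ1
  have n2 := mul_le_mul_of_nonneg_left m2 hθ0
  unfold tm
  have e1 : 1600000 * ((1 - θ) * β (upd (pt n) j θ) + θ * β (upd (pt n) j (1 - θ))) =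
      (1 - θ) * (1600000 * β (upd (pt n) j θ)) + θ * (1600000 * β (upd (pt n) j (1 - θ))) := by
    ring
  rw [e1]
  refine (add_le_add n1 n2).trans ?_
  rw [hθ]
  nlinarith [q]

theorem t_CVX : S_CVX := by
  intro β hβ j
  refine ⟨op β j, nice_op hβ j, fun s θ h0 h1 => tm_le_op hβ j s h0 h1, ?_⟩
  intro T T' d d' hd hd' hdd hGB hck n hn
  have hT : ∀ k : ℕ, k ≤ 8 → 1600000 * β (pt (up n j k)) ≤ T (up n j k) := by
    intro k hk
    refine hGB _ fun i => ?_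
    unfold up
    by_cases hi : i = j
    · subst hi
      rw [Function.update_self, hd]
      exact max_le ((hn i).trans hd') hk
    · rw [Function.update_of_ne hi]
      exact (hn i).trans (hdd i hi)
  have hck' := hck n hn
  -- the case `θ ≤ 1/2`
  have key : ∀ θ : ℝ, 0 ≤ θ → θ ≤ 1 / 2 → 1600000 * tm β j (pt n) θ ≤ T' n := by
    intro θ h0 h1
    by_cases h2 : θ < 1 / 2
    · have h8 : (0 : ℝ) ≤ 8 * θ := by positivity
      have hf : (⌊8 * θ⌋₊ : ℝ) ≤ 8 * θ := Nat.floor_le h8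
      have hf' : 8 * θ < ⌊8 * θ⌋₊ + 1 := Nat.lt_floor_add_one _
      have hlt : ⌊8 * θ⌋₊ < 4 := by
        rw [Nat.floor_lt h8]
        push_cast
        linarith
      exact grid hβ j T (T' n) n _ hlt hT (hck' _ hlt) (l := 8 * θ - ⌊8 * θ⌋₊) (by linarith)
        (by linarith) (by ring)
    · exact grid hβ j T (T' n) n 3 (by norm_num) hT (hck' 3 (by norm_num)) (l := 1) (by norm_num)
        le_rfl (by push_cast; linarith)
  have key2 : ∀ θ : ℝ, 0 ≤ θ → θ ≤ 1 → 1600000 * tm β j (pt n) θ ≤ T' n := by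
    intro θ h0 h1
    rcases le_total θ (1 / 2) with h | h
    · exact key θ h0 h
    · have := key (1 - θ) (by linarith) (by linarith)
      have e : tm β j (pt n) (1 - θ) = tm β j (pt n) θ := by
        unfold tm
        rw [sub_sub_cancel]
        ring
      rwa [e] at this
  have : op β j (pt n) ≤ (T' n : ℝ) / 1600000 := by
    refine ciSup_le fun θ => ?_
    rw [le_div_iff₀ (by norm_num)]
    linarith [key2 θ θ.2.1 θ.2.2]
  rw [le_div_iff₀ (by norm_num)] at this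
  linarith

end Pool.Agent.K3h90.KP
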